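import Pool.Agent.H930.Fuj.Numeric
import Pool.Agent.H930.Fuj.Count

/-!
# Adjoint bundles on weighted complete intersections: effective nonvanishing at general points

Let `X ⊂ P(a_1, …, a_N)` be the zero set of weighted homogeneous polynomials `f_1, …, f_c` of
degrees `d_j`, with arbitrary weights, arbitrary codimension and arbitrary singularities, such that
the action of `ℂ*` with weights `a_i` is free on the affine cone over `X` without its vertex
(`hfree`): then `O_X(1)` is invertible, and if `X` is a complete intersection then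
`K_X = O_X(∑ d_j - ∑ a_i)`.

Let `v` be a point of the cone (this is not used) such that the number of the nonzero coordinates of `v` is greater than the
number of the equations `f_j` which do not vanish identically on the coordinate subspace of `v`. We
show that `K_X + A_1 + … + A_m`, `A_r = O_X(k_r)`, has a section which does not vanish at `v` if
`∑ k_r` is greater than the sum of the weights of the coordinates of `X` which vanish at `v`, minus
the sum of the degrees of the equations which vanish identically on the coordinate subspace of `v`.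

If all coordinates of `v` are not zero then this holds for all `m ≥ 1`: so if `X` is a complete
intersection which is irreducible and is not contained in a coordinate hyperplane, then for all
`m ≥ 1` all the bundles `K_X + A_1 + … + A_m` (of nonnegative degree) are generated outside of the
coordinate hyperplanes. This is an effective form, for all weighted complete intersections, of the
nonvanishing conjecture of Ambro and Kawamata. If the vanishing coordinates of `v` have weight one
and are at most `n` in number then it holds for `m ≥ n + 1`, as predicted by Fujita's conjecture.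

Proof. Let `S` be the set of the nonzero coordinates of `v` and let `K` be the set of the equations
which do not vanish identically on the coordinate subspace. Let `g ≥ 2`. As the stabilizers are
trivial, the number of the `i ∈ S` with `g ∣ a_i` is at most the number of the `j ∈ K` with
`g ∣ d_j`. This means that `(1 - t) ^ (n + 1) ∏_K (1 - t ^ d_j) / ∏_S (1 - t ^ a_i)`,
`n + 1 = #S - #K`, is a polynomial. Its zeros are roots of unity different from one. Therefore the
coefficient at `t ^ e` of `∏_K (1 - t ^ d_j) / ∏_S (1 - t ^ a_i)` is, for `e + n` at least the degree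
of this polynomial, the value at `e` of a polynomial all of whose roots are negative integers or on
the left of `e` (compare Rodriguez-Villegas, On the zeros of certain polynomials). So this
coefficient is not zero for `e > ∑_K d_j - ∑_S a_i`. But all `d_j`, `j ∈ K`, are in the semigroup
generated by the `a_i`, `i ∈ S`, and therefore all coefficients at `t ^ e` with `e` not in this
semigroup are zero.
-/

set_option autoImplicit false

namespace Pool.Agent.Results.MP_9ff3e7_ag.EffectiveNonvanishing

open MvPolynomial Finset Pool.Agent.H930.Fuj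

/-- Counting the multiples of `g ≥ 2` among the weights of the nonzero coordinates. -/
theorem card_le {N c : ℕ} {a : Fin N → ℕ} {d : Fin c → ℕ} (hd : ∀ j, 0 < d j)
    {f : Fin c → MvPolynomial (Fin N) ℂ} (hf : ∀ j, IsWeightedHomogeneous a (f j) (d j))
    (hfree : ∀ v : Fin N → ℂ, v ≠ 0 → (∀ j, eval v (f j) = 0) →
      ∀ g : ℕ, (∀ i, v i ≠ 0 → g ∣ a i) → g = 1)
    (v : Fin N → ℂ) {g : ℕ} (hg : 2 ≤ g) :
    (univ.filter fun i => v i ≠ 0 ∧ g ∣ a i).card ≤
      (univ.filter fun j => (∃ μ ∈ (f j).support, ∀ i, μ i ≠ 0 → v i ≠ 0) ∧ g ∣ d j).card := by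
  classical
  by_contra hcon
  push Not at hcon
  set V : Finset (Fin N) := univ.filter fun i => v i ≠ 0 ∧ g ∣ a i with hV
  let ξ : Fin N → MvPolynomial {t // t ∈ V} ℂ := fun t => if h : t ∈ V then X ⟨t, h⟩ else 0
  let pad : ({t // t ∈ V} → ℂ) → Fin N → ℂ := fun w t => if h : t ∈ V then w ⟨t, h⟩ else 0
  have hpad : ∀ w t, pad w t ≠ 0 → t ∈ V := by
    intro w t h
    by_contra h1
    exact h (by simp [pad, h1])
  have hξ : ∀ w t, eval w (ξ t) = pad w t := by
    intro w t
    simp only [ξ, pad]
    split_ifs with h
    · rw [eval_X]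
    · rw [map_zero]
  have hev : ∀ (w : {t // t ∈ V} → ℂ) (p : MvPolynomial (Fin N) ℂ),
      eval w (aeval ξ p) = eval (pad w) p := by
    intro w p
    have h1 : (eval w).comp (aeval ξ : MvPolynomial (Fin N) ℂ →ₐ[ℂ] _).toRingHom =
        eval (pad w) := by
      apply MvPolynomial.ringHom_ext
      · intro c; simp
      · intro i
        simp only [RingHom.comp_apply, AlgHom.toRingHom_eq_coe, RingHom.coe_coe, aeval_X, eval_X]
        exact hξ w i
    exact congrArg (fun φ => φ p) (congrArg DFunLike.coe h1)
  obtain ⟨w, hw0, hw⟩ := Pool.Agent.H552R3.Tsen.exists_common_zero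
    (fun j : {j // (∃ μ ∈ (f j).support, ∀ i, μ i ≠ 0 → v i ≠ 0) ∧ g ∣ d j} => aeval ξ (f j))
    (fun j => by
      rw [hev]
      have h1 : pad 0 = 0 := by
        funext i
        simp [pad]
      rw [h1]
      exact eval_zero_of_weighted (hd j) (hf j)) (by
      rw [Fintype.card_subtype, Fintype.card_coe]
      exact hcon)
  have hz : ∀ j, eval (pad w) (f j) = 0 := by
    intro j
    by_contra hne
    obtain ⟨μ, hμ, hμz⟩ : ∃ μ ∈ (f j).support, (∏ i, pad w i ^ μ i) ≠ 0 := by
      by_contra hcon
      push Not at hcon
      apply hne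
      rw [eval_eq']
      exact Finset.sum_eq_zero fun μ hμ => by rw [hcon μ hμ, mul_zero]
    have hsup : ∀ i, μ i ≠ 0 → i ∈ V := by
      intro i hi
      apply hpad w i
      intro h0
      exact hμz (Finset.prod_eq_zero (Finset.mem_univ i) (by rw [h0, zero_pow hi]))
    have h1 : (∃ μ ∈ (f j).support, ∀ i, μ i ≠ 0 → v i ≠ 0) ∧ g ∣ d j := by
      refine ⟨⟨μ, hμ, fun i hi => (mem_filter.1 (hsup i hi)).2.1⟩, ?_⟩
      rw [← hf j (mem_support_iff.1 hμ)]
      exact dvd_weight fun i hi => (mem_filter.1 (hsup i hi)).2.2
    apply hne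
    rw [← hev]
    exact hw ⟨j, h1⟩
  have hz0 : pad w ≠ 0 := by
    intro h
    apply hw0
    funext t
    have h1 := congrFun h t.1
    have h2 : pad w t.1 = w t := by
      simp only [pad, dif_pos t.2, Subtype.coe_eta]
    rw [h2] at h1
    exact h1
  have h5 := hfree (pad w) hz0 hz g fun i hi => (mem_filter.1 (hpad w i hi)).2.2
  omega

/-- **Adjoint bundles on weighted complete intersections at general points.** -/
theorem result (N c : ℕ) (a : Fin N → ℕ) (ha : ∀ i, 0 < a i) (d : Fin c → ℕ) (hd : ∀ j, 0 < d j)
    (f : Fin c → MvPolynomial (Fin N) ℂ) (hf : ∀ j, IsWeightedHomogeneous a (f j) (d j))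
    -- the action of `ℂ*` on the cone is free
    (hfree : ∀ v : Fin N → ℂ, v ≠ 0 → (∀ j, eval v (f j) = 0) →
      ∀ g : ℕ, (∀ i, v i ≠ 0 → g ∣ a i) → g = 1)
    (m : ℕ) (k : Fin m → ℕ) (e : ℕ) (he : e + ∑ i, a i = ∑ j, d j + ∑ r, k r)
    (v : Fin N → ℂ)
    -- more nonzero coordinates of `v` than equations on the coordinate subspace of `v`
    (hcard : (univ.filter fun j => ∃ μ ∈ (f j).support, ∀ i, μ i ≠ 0 → v i ≠ 0).card <
      (univ.filter fun i => v i ≠ 0).card)
    (hm : ∑ i ∈ univ.filter (fun i => v i = 0), a i <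
      ∑ j ∈ univ.filter (fun j => ¬ ∃ μ ∈ (f j).support, ∀ i, μ i ≠ 0 → v i ≠ 0), d j + ∑ r, k r) :
    ∃ s : MvPolynomial (Fin N) ℂ, IsWeightedHomogeneous a s e ∧ eval v s ≠ 0 := by
  classical
  have hmain := Numeric.mem_closure (ι := {i // v i ≠ 0})
    (κ := {j // ∃ μ ∈ (f j).support, ∀ i, μ i ≠ 0 → v i ≠ 0})
    (fun i => a i.1) (fun i => ha i.1) (fun j => d j.1) (fun j => hd j.1)
    (by rw [Fintype.card_subtype, Fintype.card_subtype]; exact hcard)
    (by
      intro g hg
      have h1 := card_le hd hf hfree v hg
      have h2 : ((univ : Finset {i // v i ≠ 0}).filter fun i => g ∣ a i.1).card =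
          (univ.filter fun i => v i ≠ 0 ∧ g ∣ a i).card := by
        rw [← Finset.card_map (Function.Embedding.subtype _)]
        congr 1
        ext i
        simp [and_comm]
      have h3 : ((univ : Finset {j // ∃ μ ∈ (f j).support, ∀ i, μ i ≠ 0 → v i ≠ 0}).filter
          fun j => g ∣ d j.1).card =
          (univ.filter fun j => (∃ μ ∈ (f j).support, ∀ i, μ i ≠ 0 → v i ≠ 0) ∧ g ∣ d j).card := by
        rw [← Finset.card_map (Function.Embedding.subtype _)]
        congr 1
        ext i
        simp [and_comm]
      rw [h2, h3]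
      exact h1)
    (by
      rintro ⟨j, μ, hμ, hμv⟩
      show d j ∈ _
      rw [← hf j (mem_support_iff.1 hμ), weight_eq_sum]
      refine AddSubmonoid.sum_mem _ fun i _ => ?_
      by_cases hi : μ i = 0
      · rw [hi, zero_mul]
        exact AddSubmonoid.zero_mem _
      · rw [← smul_eq_mul]
        refine AddSubmonoid.nsmul_mem _ (AddSubmonoid.subset_closure ?_) _
        exact Set.mem_range.2 ⟨⟨i, hμv i hi⟩, rfl⟩)
    e (by
      have h1 : ∑ j : {j // ∃ μ ∈ (f j).support, ∀ i, μ i ≠ 0 → v i ≠ 0}, d j.1 =
          ∑ j ∈ univ.filter (fun j => ∃ μ ∈ (f j).support, ∀ i, μ i ≠ 0 → v i ≠ 0), d j := by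
        rw [← Finset.sum_subtype_eq_sum_filter]
        simp
      have h2 : ∑ i : {i // v i ≠ 0}, a i.1 = ∑ i ∈ univ.filter (fun i => v i ≠ 0), a i := by
        rw [← Finset.sum_subtype_eq_sum_filter]
        simp
      have h3 := Finset.sum_filter_add_sum_filter_not (univ : Finset (Fin c))
        (fun j => ∃ μ ∈ (f j).support, ∀ i, μ i ≠ 0 → v i ≠ 0) d
      have h4 := Finset.sum_filter_add_sum_filter_not (univ : Finset (Fin N)) (fun i => v i = 0) a
      change _ + ∑ i ∈ univ.filter (fun i => v i ≠ 0), a i = _ at h4
      rw [h1, h2]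
      omega)
  -- a monomial
  have hexp : ∃ w : Fin N → ℕ, (∀ i, w i ≠ 0 → v i ≠ 0) ∧ ∑ i, w i * a i = e := by
    refine AddSubmonoid.closure_induction
      (motive := fun e _ => ∃ w : Fin N → ℕ, (∀ i, w i ≠ 0 → v i ≠ 0) ∧ ∑ i, w i * a i = e)
      ?_ ?_ ?_ hmain
    · rintro _ ⟨i, rfl⟩
      refine ⟨Pi.single i.1 1, ?_, ?_⟩
      · intro l hl
        by_cases h : l = i.1
        · rw [h]; exact i.2
        · exact absurd (Pi.single_eq_of_ne h _) hl
      · rw [Finset.sum_eq_single i.1]
        · simp
        · intro l _ hl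
          rw [Pi.single_eq_of_ne hl, zero_mul]
        · intro h; exact absurd (Finset.mem_univ _) h
    · exact ⟨0, fun i hi => absurd rfl hi, by simp⟩
    · rintro x y _ _ ⟨w, hw1, hw2⟩ ⟨w', hw1', hw2'⟩
      refine ⟨w + w', ?_, ?_⟩
      · intro i hi
        by_cases h : w i = 0
        · apply hw1' i
          intro h'
          exact hi (by simp [h, h'])
        · exact hw1 i h
      · rw [← hw2, ← hw2', ← Finset.sum_add_distrib]
        exact Finset.sum_congr rfl fun i _ => by rw [Pi.add_apply, add_mul]
  obtain ⟨w, hw1, hw2⟩ := hexp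
  let μ : Fin N →₀ ℕ := Finsupp.equivFunOnFinite.symm w
  have hμ : ∀ i, μ i = w i := fun i => rfl
  refine ⟨monomial μ 1, ?_, ?_⟩
  · apply isWeightedHomogeneous_monomial
    rw [weight_eq_sum]
    exact hw2
  · rw [eval_monomial, one_mul, Finsupp.prod_fintype _ _ (fun i => pow_zero _)]
    refine Finset.prod_ne_zero_iff.2 fun i _ => ?_
    by_cases hi : w i = 0
    · rw [hμ, hi, pow_zero]; exact one_ne_zero
    · exact pow_ne_zero _ (hw1 i hi)

end Pool.Agent.Results.MP_9ff3e7_ag.EffectiveNonvanishing
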