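import Pool.Agent.H930.Fuj.Merge
import Pool.Agent.H930.Fuj.LogTrick2

/-!
# Fujita's freeness conjecture for weighted complete intersections of any codimension

Let `X ⊂ P(a_0, …, a_(n+c))` be defined by weighted homogeneous polynomials `f_1, …, f_c` of degrees
`d_j`, with arbitrary weights and arbitrary singularities, such that the action of `ℂ*` with weights
`a_i` is free on the affine cone over `X` without its vertex (`hfree`): then `O_X(1)` is invertible,
`dim X = n` and `K_X = O_X(∑ d_j - ∑ a_i)`. Suppose that `lcm(a_i, a_l) ≤ d_j` for any two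
variables `x_i ≠ x_l` which occur in `f_j`. This holds if all the weights of the variables which
occur in `f_j` divide `d_j`, for example for all complete intersections of weighted Fermat
(Brieskorn–Pham) hypersurfaces. Then `K_X + A_1 + … + A_m` is globally generated, by monomials, for
all `m ≥ n + 1` and `A_r = O_X(k_r)`, `k_r ≥ 1`.

More precisely, let `h` be the number of the weights which are equal to one. Then
`K_X + A_1 + … + A_m` is globally generated for all `m ≥ min(n, h) + 1`. For example if no weight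
is one then `K_X + A` is globally generated for all `A = O_X(k)`, `k ≥ 1`.

Proof. Let `v` be a point of the cone. We have to show that the degree `e = ∑ d_j - ∑ a_i + ∑ k_r`
is in the semigroup generated by the weights `a_i`, `i ∈ S`, where `S` is the support of `v`. We
start with the clusters `{i}`, `i ∈ S`, with the weights `g = a_i`, and merge successively the two
clusters whose weights have the smallest least common multiple `L`; the weight of the union is the
greatest common divisor of the two weights. The sum of these numbers `L` gives an upper bound for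
the Frobenius number of the semigroup (`e` is in the semigroup if `e > ∑ L - ∑_S a_i`). On the
other hand, at every stage of the process, we consider the points which arise from `v` by the action
of one parameter for every cluster, and by changing the coordinates outside of `S`. An equation of
degree less than the current number `L` does not see the parameters. So if we only use the
parameters and coordinates whose weights are divisible by a prime power `q`, then their number is at
most the number of the equations with `q ∣ d_j`, `d_j ≥ L`, because the stabilizers are trivial.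
(More precisely, we only use the coordinates outside of `S` with weights at least `x`, for
`x ≤ L`.) So for all prime powers `q` and all `x`, the numbers `L` and the weights outside of `S`
which are at least `x` and divisible by `q` are at most as many as the degrees `d_j` with these
properties. Writing `t - 1 = (t - 1) / log t * ∑_(q ∣ t) log p`, where `(t - 1) / log t` is
increasing, we see that `∑ (L - 1) + ∑_(i ∉ S) (a_i - 1) ≤ ∑ (d_j - 1)`, which is what we need for
the first assertion. For the second one we use the function `t / log t`, which is increasing on the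
multiples `t > 0` of every prime power.
-/

set_option autoImplicit false

namespace Pool.Agent.Results.MP_9ff3e7_ag.LcmDegrees

open MvPolynomial Finset Pool.Agent.H930.Fuj

/-- The common data of a point. -/
theorem exists_list {n c : ℕ} {a : Fin (n + c + 1) → ℕ} (ha : ∀ i, 0 < a i)
    {d : Fin c → ℕ} (hd : ∀ j, 0 < d j)
    {f : Fin c → MvPolynomial (Fin (n + c + 1)) ℂ} (hf : ∀ j, IsWeightedHomogeneous a (f j) (d j))
    (hlcm : ∀ j, ∀ i ∈ (f j).vars, ∀ l ∈ (f j).vars, i ≠ l → Nat.lcm (a i) (a l) ≤ d j)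
    (hfree : ∀ v : Fin (n + c + 1) → ℂ, v ≠ 0 → (∀ j, eval v (f j) = 0) →
      ∀ g : ℕ, (∀ i, v i ≠ 0 → g ∣ a i) → g = 1)
    {v : Fin (n + c + 1) → ℂ} (hv : v ≠ 0) (hfv : ∀ j, eval v (f j) = 0) :
    ∃ L : Multiset ℕ, (∀ l ∈ L, 0 < l) ∧
      L.card + 1 = (univ.filter fun i => v i ≠ 0).card ∧
      (∀ e : ℤ, (L.sum : ℤ) - ∑ i ∈ univ.filter (fun i => v i ≠ 0), (a i : ℤ) + 1 ≤ e →
        ∃ w : Fin (n + c + 1) → ℕ, (∀ i, w i ≠ 0 → v i ≠ 0) ∧ e = ∑ i, (w i : ℤ) * a i) ∧
      (∀ p k x : ℕ, p.Prime → 1 ≤ k → L.countP (fun t => p ^ k ∣ t ∧ x ≤ t) +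
        (univ.filter fun u => v u = 0 ∧ p ^ k ∣ a u ∧ x ≤ a u).card ≤
        (univ.filter fun j => p ^ k ∣ d j ∧ x ≤ d j).card) ∧
      ((∀ i, v i ≠ 0 → a i ≠ 1) → ∀ l ∈ L, 2 ≤ l) := by
  classical
  set R : Finset (Fin (n + c + 1)) := univ.filter fun i => v i ≠ 0 with hR
  have hR0 : R.Nonempty := by
    obtain ⟨i, hi⟩ := Function.ne_iff.1 hv
    exact ⟨i, by simpa [hR] using hi⟩
  obtain ⟨n', hn'⟩ : ∃ n', R.card = n' + 1 := ⟨R.card - 1, by
    have := hR0.card_pos
    omega⟩
  have hs : State a v R id a := {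
    mem := fun i hi => by simpa [hR] using hi
    ne := fun t ht => (mem_filter.1 ht).2
    fix := fun t _ => rfl
    dvd := fun i _ => dvd_rfl
    pos := fun t _ => ha t }
  obtain ⟨L, hL1, hL2, hLa, hLb, -, hLd⟩ := exists_multiset ha hd hf hfv hlcm hfree n' R id a hs hn'
    (fun q hq => hfree v hv hfv q fun i hi => hq i (hs.mem i hi))
  refine ⟨L, hL1, by rw [hL2, hn'], ?_, hLb, ?_⟩
  · intro e he
    obtain ⟨w, hw⟩ := hLa e he
    refine ⟨fun i => if v i ≠ 0 then w i else 0, ?_, ?_⟩
    · intro i hi h0
      apply hi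
      simp [h0]
    · rw [hw, hR, Finset.sum_filter]
      refine Finset.sum_congr rfl fun i _ => ?_
      by_cases hi : v i = 0 <;> simp [hi]
  · intro h1
    exact hLd fun s hsR t _ _ h2 => absurd h2 (h1 s (hs.ne s hsR))

/-- The degree is in the semigroup generated by the weights of the support of the point. -/
theorem exists_exponents {n c : ℕ} {a : Fin (n + c + 1) → ℕ} (ha : ∀ i, 0 < a i)
    {d : Fin c → ℕ} (hd : ∀ j, 0 < d j)
    {f : Fin c → MvPolynomial (Fin (n + c + 1)) ℂ} (hf : ∀ j, IsWeightedHomogeneous a (f j) (d j))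
    (hlcm : ∀ j, ∀ i ∈ (f j).vars, ∀ l ∈ (f j).vars, i ≠ l → Nat.lcm (a i) (a l) ≤ d j)
    (hfree : ∀ v : Fin (n + c + 1) → ℂ, v ≠ 0 → (∀ j, eval v (f j) = 0) →
      ∀ g : ℕ, (∀ i, v i ≠ 0 → g ∣ a i) → g = 1)
    {v : Fin (n + c + 1) → ℂ} (hv : v ≠ 0) (hfv : ∀ j, eval v (f j) = 0) (e : ℤ)
    (he : (∑ j, d j : ℤ) - ∑ i, (a i : ℤ) + (n + 1) ≤ e) :
    ∃ w : Fin (n + c + 1) → ℕ, (∀ i, w i ≠ 0 → v i ≠ 0) ∧ e = ∑ i, (w i : ℤ) * a i := by
  classical
  obtain ⟨L, hL1, hL2, hLa, hLb, -⟩ := exists_list ha hd hf hlcm hfree hv hfv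
  set R : Finset (Fin (n + c + 1)) := univ.filter fun i => v i ≠ 0 with hR
  set U : Finset (Fin (n + c + 1)) := univ.filter fun i => ¬ v i ≠ 0 with hU
  have hsplit : ∀ F : Fin (n + c + 1) → ℤ, ∑ i ∈ R, F i + ∑ i ∈ U, F i = ∑ i, F i :=
    fun F => Finset.sum_filter_add_sum_filter_not _ _ _
  have hcard : R.card + U.card = n + c + 1 := by
    have := Finset.card_filter_add_card_filter_not (s := (univ : Finset (Fin (n + c + 1))))
      (fun i => v i ≠ 0)
    rwa [Finset.card_univ, Fintype.card_fin] at this
  -- the inequality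
  have hkey := sum_le_sum_of_countP (L + U.val.map a) ((univ : Finset (Fin c)).val.map d)
    (by
      intro t ht
      rcases Multiset.mem_add.1 ht with h | h
      · exact hL1 t h
      · obtain ⟨i, -, rfl⟩ := Multiset.mem_map.1 h
        exact ha i)
    (by
      intro t ht
      obtain ⟨j, -, rfl⟩ := Multiset.mem_map.1 ht
      exact hd j)
    (by
      intro p k x hp hk
      have h1 := hLb p k x hp hk
      rw [Multiset.countP_add, Multiset.countP_map, Multiset.countP_map]
      have h2 : (Multiset.filter (fun i => p ^ k ∣ a i ∧ x ≤ a i) U.val).card =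
          (univ.filter fun u => v u = 0 ∧ p ^ k ∣ a u ∧ x ≤ a u).card := by
        rw [← Finset.filter_val, Finset.card_val, hU, Finset.filter_filter]
        congr 1
        apply Finset.filter_congr
        intro i _
        simp only [not_not]
      have h3 : (Multiset.filter (fun j => p ^ k ∣ d j ∧ x ≤ d j)
          (univ : Finset (Fin c)).val).card =
          (univ.filter fun j => p ^ k ∣ d j ∧ x ≤ d j).card := by
        rw [← Finset.filter_val, Finset.card_val]
      rw [h2, h3]
      exact h1)
  rw [Multiset.sum_add, Multiset.card_add, Multiset.card_map, Multiset.card_map, Finset.card_val,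
    Finset.card_val, Finset.card_univ, Fintype.card_fin] at hkey
  change L.sum + ∑ i ∈ U, a i + c ≤ ∑ j, d j + (L.card + U.card) at hkey
  have hkey' : (L.sum : ℤ) + ∑ i ∈ U, (a i : ℤ) + c ≤ ∑ j, (d j : ℤ) + (L.card + U.card) := by
    exact_mod_cast hkey
  have hsa := hsplit fun i => (a i : ℤ)
  have hcard' : ((L.card : ℤ) + 1) + U.card = n + c + 1 := by
    rw [← hL2] at hcard
    exact_mod_cast hcard
  exact hLa e (by linarith)

/-- A sharper bound for points at which the linear coordinates vanish. -/
theorem exists_exponents' {n c : ℕ} {a : Fin (n + c + 1) → ℕ} (ha : ∀ i, 0 < a i)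
    {d : Fin c → ℕ} (hd : ∀ j, 0 < d j)
    {f : Fin c → MvPolynomial (Fin (n + c + 1)) ℂ} (hf : ∀ j, IsWeightedHomogeneous a (f j) (d j))
    (hlcm : ∀ j, ∀ i ∈ (f j).vars, ∀ l ∈ (f j).vars, i ≠ l → Nat.lcm (a i) (a l) ≤ d j)
    (hfree : ∀ v : Fin (n + c + 1) → ℂ, v ≠ 0 → (∀ j, eval v (f j) = 0) →
      ∀ g : ℕ, (∀ i, v i ≠ 0 → g ∣ a i) → g = 1)
    {v : Fin (n + c + 1) → ℂ} (hv : v ≠ 0) (hfv : ∀ j, eval v (f j) = 0)
    (hone : ∀ i, v i ≠ 0 → a i ≠ 1) (e : ℤ)
    (he : (∑ j, d j : ℤ) - ∑ i, (a i : ℤ) + ((univ.filter fun i => a i = 1).card + 1) ≤ e) :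
    ∃ w : Fin (n + c + 1) → ℕ, (∀ i, w i ≠ 0 → v i ≠ 0) ∧ e = ∑ i, (w i : ℤ) * a i := by
  classical
  obtain ⟨L, hL1, hL2, hLa, hLb, hLd⟩ := exists_list ha hd hf hlcm hfree hv hfv
  set R : Finset (Fin (n + c + 1)) := univ.filter fun i => v i ≠ 0 with hR
  set U : Finset (Fin (n + c + 1)) := univ.filter fun i => ¬ v i ≠ 0 with hU
  set U' : Finset (Fin (n + c + 1)) := U.filter fun i => ¬ a i = 1 with hU'
  have hsplit : ∀ F : Fin (n + c + 1) → ℤ, ∑ i ∈ R, F i + ∑ i ∈ U, F i = ∑ i, F i :=
    fun F => Finset.sum_filter_add_sum_filter_not _ _ _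
  -- all linear coordinates are outside of the support
  have hlin : U.filter (fun i => a i = 1) = univ.filter fun i => a i = 1 := by
    rw [hU, Finset.filter_filter]
    apply Finset.filter_congr
    intro i _
    constructor
    · exact fun h => h.2
    · intro h
      refine ⟨?_, h⟩
      intro h1
      exact hone i h1 h
  have hUsum : ∑ i ∈ U, (a i : ℤ) = (univ.filter fun i => a i = 1).card + ∑ i ∈ U', (a i : ℤ) := by
    rw [← Finset.sum_filter_add_sum_filter_not U (fun i => a i = 1), hlin]
    congr 1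
    rw [Finset.sum_congr rfl (g := fun _ => (1 : ℤ))]
    · simp
    · intro i hi
      rw [(mem_filter.1 hi).2]
      rfl
  set D : Finset (Fin c) := univ.filter fun j => 2 ≤ d j with hD
  -- the inequality
  have hkey := sum_le_sum_of_countP_two (L + U'.val.map a) (D.val.map d)
    (by
      intro t ht
      rcases Multiset.mem_add.1 ht with h | h
      · exact hLd hone t h
      · obtain ⟨i, hi, rfl⟩ := Multiset.mem_map.1 h
        have hi' : i ∈ U' := hi
        have h1 := (mem_filter.1 hi').2
        have h2 := ha i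
        omega)
    (by
      intro t ht
      obtain ⟨j, hj, rfl⟩ := Multiset.mem_map.1 ht
      have hj' : j ∈ D := hj
      exact (mem_filter.1 hj').2)
    (by
      intro p k x hp hk
      have h1 := hLb p k x hp hk
      have hpk : 2 ≤ p ^ k := le_trans hp.two_le (Nat.le_self_pow (by omega) p)
      rw [Multiset.countP_add, Multiset.countP_map, Multiset.countP_map]
      have h2 : (Multiset.filter (fun i => p ^ k ∣ a i ∧ x ≤ a i) U'.val).card =
          (univ.filter fun u => v u = 0 ∧ p ^ k ∣ a u ∧ x ≤ a u).card := by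
        rw [← Finset.filter_val, Finset.card_val]
        congr 1
        ext i
        rw [hU', hU]
        simp only [mem_filter, mem_univ, true_and, not_not]
        constructor
        · rintro ⟨⟨h3, -⟩, h4⟩
          exact ⟨h3, h4⟩
        · rintro ⟨h3, h4, h5⟩
          refine ⟨⟨h3, ?_⟩, h4, h5⟩
          intro h6
          rw [h6] at h4
          have := Nat.le_of_dvd one_pos h4
          omega
      have h3 : (Multiset.filter (fun j => p ^ k ∣ d j ∧ x ≤ d j) D.val).card =
          (univ.filter fun j => p ^ k ∣ d j ∧ x ≤ d j).card := by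
        rw [← Finset.filter_val, Finset.card_val, hD, Finset.filter_filter]
        congr 1
        apply Finset.filter_congr
        intro j _
        constructor
        · exact fun h => h.2
        · intro h
          exact ⟨hpk.trans (Nat.le_of_dvd (hd j) h.1), h⟩
      rw [h2, h3]
      exact h1)
  rw [Multiset.sum_add] at hkey
  change L.sum + ∑ i ∈ U', a i ≤ ∑ j ∈ D, d j at hkey
  have hkey2 : L.sum + ∑ i ∈ U', a i ≤ ∑ j, d j :=
    hkey.trans (Finset.sum_le_sum_of_subset (Finset.subset_univ _))
  have hkey' : (L.sum : ℤ) + ∑ i ∈ U', (a i : ℤ) ≤ ∑ j, (d j : ℤ) := by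
    exact_mod_cast hkey2
  have hsa := hsplit fun i => (a i : ℤ)
  exact hLa e (by linarith)

/-- **Fujita's freeness conjecture for weighted complete intersections of any codimension** such
that `lcm(a_i, a_l) ≤ d_j` for any two variables `x_i ≠ x_l` which occur in `f_j`:
`K_X + A_1 + … + A_m` is globally generated for all `m ≥ min(n, h) + 1`, where `n` is the dimension
and `h` the number of the weights which are equal to one. -/
theorem result (n c : ℕ) (a : Fin (n + c + 1) → ℕ) (ha : ∀ i, 0 < a i)
    (d : Fin c → ℕ) (hd : ∀ j, 0 < d j)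
    (f : Fin c → MvPolynomial (Fin (n + c + 1)) ℂ) (hf : ∀ j, IsWeightedHomogeneous a (f j) (d j))
    -- the least common multiples of the weights of any two variables of an equation
    (hlcm : ∀ j, ∀ i ∈ (f j).vars, ∀ l ∈ (f j).vars, i ≠ l → Nat.lcm (a i) (a l) ≤ d j)
    -- the action of `ℂ*` on the cone is free
    (hfree : ∀ v : Fin (n + c + 1) → ℂ, v ≠ 0 → (∀ j, eval v (f j) = 0) →
      ∀ g : ℕ, (∀ i, v i ≠ 0 → g ∣ a i) → g = 1)
    (m : ℕ) (k : Fin m → ℕ) (hk : ∀ r, 1 ≤ k r)
    (hm : min n (univ.filter fun i => a i = 1).card + 1 ≤ m) :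
    ∃ e : ℕ, e + ∑ i, a i = ∑ j, d j + ∑ r, k r ∧
      ∀ v : Fin (n + c + 1) → ℂ, v ≠ 0 → (∀ j, eval v (f j) = 0) →
        ∃ s : MvPolynomial (Fin (n + c + 1)) ℂ, IsWeightedHomogeneous a s e ∧ eval v s ≠ 0 := by
  classical
  have hsumk : ((min n (univ.filter fun i => a i = 1).card : ℕ) : ℤ) + 1 ≤ ∑ r, (k r : ℤ) := by
    have h1 : m ≤ ∑ r, k r := by
      calc m = ∑ _r : Fin m, 1 := by simp
        _ ≤ ∑ r, k r := Finset.sum_le_sum fun r _ => hk r
    have h2 : min n (univ.filter fun i => a i = 1).card + 1 ≤ ∑ r, k r := hm.trans h1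
    exact_mod_cast h2
  set e' : ℤ := ∑ j, (d j : ℤ) - ∑ i, (a i : ℤ) + ∑ r, (k r : ℤ) with he'
  -- the points at which the linear coordinates vanish, or all points
  have hexp : ∀ v : Fin (n + c + 1) → ℂ, v ≠ 0 → (∀ j, eval v (f j) = 0) →
      (n ≤ (univ.filter fun i => a i = 1).card ∨ ∀ i, v i ≠ 0 → a i ≠ 1) →
      ∃ w : Fin (n + c + 1) → ℕ, (∀ i, w i ≠ 0 → v i ≠ 0) ∧ e' = ∑ i, (w i : ℤ) * a i := by
    intro v hv hfv h
    rcases Nat.lt_or_ge (univ.filter fun i => a i = 1).card n with h1 | h1
    · rw [min_eq_right h1.le] at hsumk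
      exact exists_exponents' ha hd hf hlcm hfree hv hfv
        (h.resolve_left (not_le.2 h1)) e' (by rw [he']; linarith)
    · rw [min_eq_left h1] at hsumk
      exact exists_exponents ha hd hf hlcm hfree hv hfv e' (by rw [he']; linarith)
  -- `e'` is nonnegative
  have he0 : 0 ≤ e' := by
    have hpos : ∀ w : Fin (n + c + 1) → ℕ, e' = ∑ i, (w i : ℤ) * a i → 0 ≤ e' := by
      intro w hw
      rw [hw]
      exact Finset.sum_nonneg fun i _ => by positivity
    rcases Nat.lt_or_ge (univ.filter fun i => a i = 1).card n with h1 | h1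
    · -- a base point of the linear coordinates
      let P : Fin c ⊕ {i // a i = 1} → MvPolynomial (Fin (n + c + 1)) ℂ :=
        Sum.elim f fun i => X i.1
      obtain ⟨v₀, hv₀, hP⟩ := Pool.Agent.H552R3.Tsen.exists_common_zero P
        (by
          rintro (j | i)
          · exact eval_zero_of_weighted (hd j) (hf j)
          · exact eval_X _)
        (by
          rw [Fintype.card_sum, Fintype.card_fin, Fintype.card_fin, Fintype.card_subtype]
          omega)
      obtain ⟨w₀, -, hw₀⟩ := hexp v₀ hv₀ (fun j => hP (Sum.inl j)) (Or.inr fun i hi h2 => by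
        have h3 := hP (Sum.inr ⟨i, h2⟩)
        simp only [P, Sum.elim_inr, eval_X] at h3
        exact hi h3)
      exact hpos w₀ hw₀
    · obtain ⟨v₀, hv₀, hfv₀⟩ := Pool.Agent.H552R3.Tsen.exists_common_zero f
        (fun j => eval_zero_of_weighted (hd j) (hf j)) (by
          rw [Fintype.card_fin, Fintype.card_fin]; omega)
      obtain ⟨w₀, -, hw₀⟩ := hexp v₀ hv₀ hfv₀ (Or.inl h1)
      exact hpos w₀ hw₀
  obtain ⟨e, hee⟩ := Int.eq_ofNat_of_zero_le he0
  refine ⟨e, ?_, ?_⟩
  · have h1 : (e : ℤ) + ∑ i, (a i : ℤ) = ∑ j, (d j : ℤ) + ∑ r, (k r : ℤ) := by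
      rw [← hee, he']; ring
    exact_mod_cast h1
  · intro v hv hfv
    -- exponents of a monomial
    obtain ⟨w, hw1, hw2⟩ : ∃ w : Fin (n + c + 1) → ℕ, (∀ i, w i ≠ 0 → v i ≠ 0) ∧
        e' = ∑ i, (w i : ℤ) * a i := by
      by_cases hone : ∀ i, v i ≠ 0 → a i ≠ 1
      · exact hexp v hv hfv (Or.inr hone)
      · push Not at hone
        obtain ⟨i, hi, hai⟩ := hone
        refine ⟨Pi.single i e, ?_, ?_⟩
        · intro l hl
          by_cases hil : l = i
          · rw [hil]; exact hi
          · exact absurd (Pi.single_eq_of_ne hil _) hl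
        · rw [hee, Finset.sum_eq_single i]
          · rw [Pi.single_eq_same, hai]; simp
          · intro l _ hl
            rw [Pi.single_eq_of_ne hl]; simp
          · intro h; exact absurd (Finset.mem_univ i) h
    let μ : Fin (n + c + 1) →₀ ℕ := Finsupp.equivFunOnFinite.symm w
    have hμ : ∀ i, μ i = w i := fun i => rfl
    refine ⟨monomial μ 1, ?_, ?_⟩
    · apply isWeightedHomogeneous_monomial
      rw [weight_eq_sum]
      have h2 : ((∑ i, μ i * a i : ℕ) : ℤ) = e := by
        rw [← hee, hw2]
        push_cast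
        rfl
      exact_mod_cast h2
    · rw [eval_monomial, one_mul, Finsupp.prod_fintype _ _ (fun i => pow_zero _)]
      refine Finset.prod_ne_zero_iff.2 fun i _ => ?_
      by_cases hi : w i = 0
      · rw [hμ, hi, pow_zero]; exact one_ne_zero
      · exact pow_ne_zero _ (hw1 i hi)

end Pool.Agent.Results.MP_9ff3e7_ag.LcmDegrees
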